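import Pool.Agent.D0H73.OP.Stm

/-!
# Project OP: comparison with an exact character
-/

open Finset
open scoped BigOperators

namespace Pool.Agent.D0H73.OP

open Pool.Agent.V1192 Pool.Agent.V1192.GA
open Pool.Agent.V1192.UOD (V)

noncomputable section

variable {p : ℕ} [Fact p.Prime] {N : ℕ → ℕ}

theorem chr_add {M : ℕ} (u v v' : V p M) : chr u (v + v') = chr u v * chr u v' := by
  unfold chr
  rw [← AddChar.map_add_eq_mul]
  congr 1
  rw [← sum_add_distrib]
  exact sum_congr rfl (fun j _ => by rw [Pi.add_apply, mul_add])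

theorem chr_zero {M : ℕ} (u : V p M) : chr u (0 : V p M) = 1 := by
  unfold chr
  simp

theorem norm_chr {M : ℕ} (u v : V p M) : ‖chr u v‖ = 1 := by
  unfold chr
  exact AddChar.norm_apply _ _

open Classical in
/-- The indicator of vanishing lengths beyond `k + 1`. -/
def TT {n : ℕ} (d : (i : Fin n) → V p (N i) → ℕ) (k : ℕ) (g : H p N n) : ℂ :=
  if ∀ i : Fin n, k + 1 < (i : ℕ) → d i (g i) = 0 then 1 else 0

theorem prod_sv1 {n : ℕ} (d : (i : Fin n) → V p (N i) → ℕ) (k : ℕ) (hk : k + 1 < n) (g : H p N n)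
    (z ζ : ℂ) : ∏ i, sv k z ζ i ^ d i (g i)
      = z ^ d ⟨k, by omega⟩ (g ⟨k, by omega⟩) * ζ ^ d ⟨k + 1, hk⟩ (g ⟨k + 1, hk⟩) * TT d k g := by
  classical
  unfold TT
  split_ifs with h
  · rw [Finset.prod_eq_mul (⟨k, by omega⟩ : Fin n) (⟨k + 1, hk⟩ : Fin n)]
    · simp [sv]
    · intro h2
      have := congrArg Fin.val h2
      simp at this
    · intro i _ hi
      have h1 : (i : ℕ) ≠ k := fun e => hi.1 (Fin.ext e)
      have h2 : (i : ℕ) ≠ k + 1 := fun e => hi.2 (Fin.ext e)
      by_cases h3 : (i : ℕ) < k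
      · simp [sv, h3]
      · rw [h i (by omega), pow_zero]
    · intro h2; exact absurd (mem_univ _) h2
    · intro h2; exact absurd (mem_univ _) h2
  · push Not at h
    obtain ⟨i, hi, hd⟩ := h
    rw [mul_zero]
    refine Finset.prod_eq_zero (mem_univ i) ?_
    have h1 : sv k z ζ i = 0 := by
      unfold sv
      rw [if_neg (by omega), if_neg (by omega), if_neg (by omega)]
    rw [h1, zero_pow hd]

theorem prod_sv2 {n : ℕ} (d : (i : Fin n) → V p (N i) → ℕ) (k : ℕ) (hk : k + 1 < n) (g : H p N n)
    (ζ : ℂ) : ∏ i, sv (k + 1) ζ 0 i ^ d i (g i)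
      = ζ ^ d ⟨k + 1, hk⟩ (g ⟨k + 1, hk⟩) * TT d k g := by
  classical
  unfold TT
  split_ifs with h
  · rw [Finset.prod_eq_single (⟨k + 1, hk⟩ : Fin n)]
    · simp [sv]
    · intro i _ hi
      have h2 : (i : ℕ) ≠ k + 1 := fun e => hi (Fin.ext e)
      by_cases h3 : (i : ℕ) < k + 1
      · simp [sv, h3]
      · rw [h i (by omega), pow_zero]
    · intro h2; exact absurd (mem_univ _) h2
  · push Not at h
    obtain ⟨i, hi, hd⟩ := h
    rw [mul_zero]
    refine Finset.prod_eq_zero (mem_univ i) ?_
    have h1 : sv (k + 1) ζ 0 i = 0 := by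
      unfold sv
      rw [if_neg (by omega), if_neg (by omega)]
      split_ifs <;> rfl
    rw [h1, zero_pow hd]

/-- The product formula for the generators average of an indicator. -/
theorem Ex_ind_real {n : ℕ} (i : Fin n) (P : H p N n → Prop) [DecidablePred P] :
    ∃ r : ℝ, 0 ≤ r ∧ Ex i (fun g => if P g then (1 : ℂ) else 0) = (r : ℂ) := by
  have hp : 1 ≤ p := (Fact.out : p.Prime).one_lt.le
  have hp' : (0 : ℝ) ≤ (p : ℝ) - 1 := by
    have : (1 : ℝ) ≤ p := by exact_mod_cast hp
    linarith
  refine ⟨(1 / ((N i : ℝ) * ((p : ℝ) - 1))) * ∑ j : Fin (N i), ∑ a ∈ (univ : Finset (ZMod p)).erase 0,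
    (if P (Pi.single i (Pi.single j a)) then (1 : ℝ) else 0), ?_, ?_⟩
  · refine mul_nonneg (by positivity) (sum_nonneg fun _ _ => sum_nonneg fun _ _ => ?_)
    split_ifs <;> norm_num
  · unfold Ex
    push_cast
    congr 1
    refine sum_congr rfl (fun j _ => sum_congr rfl (fun a _ => ?_))
    split_ifs <;> simp

theorem t_CMP (hC : S_CONC) (hNu : S_NUM) (hA : S_AAF) (hV : S_VAL) : S_CMP := by
  classical
  intro p _ N l x y d m hN0 hD k χ hk hχ r hr hrb
  obtain ⟨hw, hτ, -, -, -, -⟩ := hNu p
  obtain ⟨hA1, hA2, hA3, hA4⟩ := hA p N (l + 2) hN0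
  have hpp : (2 : ℝ) ≤ p := by exact_mod_cast (Fact.out : p.Prime).two_le
  have hwk := hw k
  have hwk1 := hw (k + 1)
  have hkn : k + 1 < l + 2 := by omega
  set K : Fin (l + 2) := ⟨k, by omega⟩ with hK
  set K1 : Fin (l + 2) := ⟨k + 1, hkn⟩ with hK1
  set q : ℝ := -r / w p k with hq
  have hqb : |q| ≤ 1 / (8 * p) := by
    rw [hq, abs_div, abs_neg, abs_of_pos hwk.1, div_le_iff₀ hwk.1]
    calc |r| ≤ w p k / (8 * p) := hrb
      _ = 1 / (8 * p) * w p k := by ring
  have hmnn : ∀ v, 0 ≤ m K v := fun v => (sum_nonneg (fun _ _ => norm_nonneg _)).trans (hD.mx K v)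
  -- the functions
  set D : ℕ := ∑ v, d K1 v with hDD
  have hdD : ∀ v, d K1 v < D + 1 := fun v =>
    Nat.lt_succ_of_le (single_le_sum (f := fun v => d K1 v) (fun _ _ => Nat.zero_le _) (mem_univ v))
  set f : Option (Fin (D + 1)) → V p (N K) → ℂ := fun o v =>
    match o with
    | none => (w p k : ℂ) * Ex K (fun g : H p N (l + 2) => if g K = v then (1 : ℂ) else 0)
    | some j => ∑ g ∈ univ.filter (fun g : H p N (l + 2) => g K = v),
        (if d K1 (g K1) = (j : ℕ) then x g * χ g * TT d k g else 0) with hf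
  set c : Option (Fin (D + 1)) → ℝ := fun o =>
    match o with
    | none => 1
    | some j => (1 / 2) ^ (j : ℕ) with hc
  have hc0 : ∀ o, 0 ≤ c o := by
    intro o
    rcases o with _ | j
    · simp [hc]
    · simp only [hc]; positivity
  have hTT : ∀ g : H p N (l + 2), ‖TT d k g‖ ≤ 1 := by
    intro g
    unfold TT
    split_ifs <;> simp
  have hfm : ∀ o v, ‖f o v‖ ≤ m K v := by
    intro o v
    rcases o with _ | j
    · refine le_trans ?_ (hD.ma K v)
      have h1 : ap aa (fun g : H p N (l + 2) => if g K = v then (1 : ℂ) else 0)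
          = ∑ g ∈ univ.filter (fun g : H p N (l + 2) => g K = v), aa g := by
        unfold ap
        rw [sum_filter]
        refine sum_congr rfl (fun g _ => ?_)
        by_cases hg : g K = v <;> simp [hg]
      have h2 := hA1 (fun g : H p N (l + 2) => if g K = v then (1 : ℂ) else 0)
      have h3 : ∀ i : Fin (l + 2), ∃ r : ℝ, 0 ≤ r ∧
          Ex i (fun g : H p N (l + 2) => if g K = v then (1 : ℂ) else 0) = (r : ℂ) :=
        fun i => Ex_ind_real i _
      choose ρ hρ0 hρ using h3
      have h4 : ap aa (fun g : H p N (l + 2) => if g K = v then (1 : ℂ) else 0)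
          = ((∑ i : Fin (l + 2), w p i * ρ i : ℝ) : ℂ) := by
        rw [h2]
        push_cast
        exact sum_congr rfl (fun i _ => by rw [hρ])
      have h5 : ‖f none v‖ = w p k * ρ K := by
        simp only [hf]
        rw [hρ, ← Complex.ofReal_mul, Complex.norm_real, Real.norm_of_nonneg
          (mul_nonneg hwk.1.le (hρ0 _))]
      rw [h5]
      calc w p k * ρ K ≤ ∑ i : Fin (l + 2), w p i * ρ i :=
            single_le_sum (f := fun i : Fin (l + 2) => w p i * ρ i)
              (fun i _ => mul_nonneg (hw i).1.le (hρ0 i)) (mem_univ K)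
        _ = ‖ap aa (fun g : H p N (l + 2) => if g K = v then (1 : ℂ) else 0)‖ := by
            rw [h4, Complex.norm_real, Real.norm_of_nonneg]
            exact sum_nonneg (fun i _ => mul_nonneg (hw i).1.le (hρ0 i))
        _ ≤ _ := by
            rw [h1]
            exact norm_sum_le _ _
    · refine le_trans ?_ (hD.mx K v)
      refine (norm_sum_le _ _).trans (sum_le_sum (fun g _ => ?_))
      split_ifs
      · rw [norm_mul, norm_mul, hχ.norm, mul_one]
        exact mul_le_of_le_one_right (norm_nonneg _) (hTT g)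
      · rw [norm_zero]; exact norm_nonneg _
  obtain ⟨u, hu⟩ := hC p (N K) (m K) 16 (tau p k) (d K) (by norm_num) (hτ k).1 (hτ k).2.1 (hD.pkg K)
    hmnn (hD.msym K) (hD.mtot K) q hqb (Option (Fin (D + 1))) f c hc0 hfm
  have hcs : ∑ o, c o ≤ 3 := by
    rw [Fintype.sum_option]
    have h1 : ∑ i : Fin (D + 1), c (some i) = ∑ j ∈ range (D + 1), ((1 : ℝ) / 2) ^ j := by
      rw [Finset.sum_range]
    rw [h1]
    have h2 : ∑ j ∈ range (D + 1), ((1 : ℝ) / 2) ^ j ≤ 2 := sum_geometric_two_le _
    simp only [hc]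
    linarith
  have hsq : Real.sqrt (tau p k) = w p (k + 1) ^ 2 / 10 ^ 5 := by
    have : tau p k = (w p (k + 1) ^ 2 / 10 ^ 5) ^ 2 := by
      unfold tau
      ring
    rw [this, Real.sqrt_sq]
    have := hwk1.1
    positivity
  set B : ℝ := w p (k + 1) ^ 2 * (144 / 10 ^ 5) with hB
  have hw2 : 0 < w p (k + 1) ^ 2 := by have := hwk1.1; positivity
  have hu' : ∑ o, c o * ‖∑ v, f o v * (chr u v - (q : ℂ) ^ d K v)‖ ≤ B := by
    refine hu.trans ?_
    rw [hsq]
    calc (∑ o, c o) * (3 * 16 * (w p (k + 1) ^ 2 / 10 ^ 5))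
        ≤ 3 * (3 * 16 * (w p (k + 1) ^ 2 / 10 ^ 5)) :=
          mul_le_mul_of_nonneg_right hcs (by positivity)
      _ = B := by rw [hB]; ring
  rw [Fintype.sum_option] at hu'
  have hu1 : ‖∑ v, f none v * (chr u v - (q : ℂ) ^ d K v)‖ ≤ B := by
    have h1 : 0 ≤ ∑ i, c (some i) * ‖∑ v, f (some i) v * (chr u v - (q : ℂ) ^ d K v)‖ :=
      sum_nonneg (fun i _ => mul_nonneg (hc0 (some i)) (norm_nonneg _))
    have h2 : c none = 1 := rfl
    rw [h2, one_mul] at hu'
    linarith
  have hu2 : ∑ i, c (some i) * ‖∑ v, f (some i) v * (chr u v - (q : ℂ) ^ d K v)‖ ≤ B := by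
    have h1 : 0 ≤ c none * ‖∑ v, f none v * (chr u v - (q : ℂ) ^ d K v)‖ :=
      mul_nonneg (hc0 none) (norm_nonneg _)
    linarith
  -- the new character
  set χ' : H p N (l + 2) → ℂ := fun g => χ g * chr u (g K) with hχ'
  have hχ'c : IsChr (k + 1) χ' := by
    refine ⟨fun g h => ?_, fun g => ?_, fun g hg => ?_⟩
    · simp only [hχ', hχ.add, Pi.add_apply, chr_add]
      ring
    · simp only [hχ', norm_mul, hχ.norm, norm_chr, mul_one]
    · simp only [hχ']
      rw [hχ.triv g (fun i hi => hg i (by omega)), hg K (by simp [hK]), chr_zero, mul_one]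
  refine ⟨χ', hχ'c, ?_, ?_⟩
  · -- the residual
    obtain ⟨e, he⟩ := hA4 K χ' hχ'c.add hχ'c.norm
    have hsplit : tt (k + 1) χ' = (r : ℂ) + (w p k : ℂ) * Ex K χ' := by
      have h1 : (univ.filter (fun i : Fin (l + 2) => (i : ℕ) < k + 1))
          = insert K (univ.filter (fun i : Fin (l + 2) => (i : ℕ) < k)) := by
        ext i
        simp only [mem_filter, mem_univ, true_and, mem_insert, Fin.ext_iff, hK]
        omega
      unfold tt
      rw [h1, sum_insert (by simp [hK])]
      rw [add_comm]
      congr 1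
      rw [← hr]
      unfold tt
      refine sum_congr rfl (fun i hi => ?_)
      congr 1
      have hik : i ≠ K := by
        intro h
        rw [h] at hi
        simp [hK] at hi
      unfold Ex
      congr 1
      refine sum_congr rfl (fun j _ => sum_congr rfl (fun a _ => ?_))
      simp only [hχ']
      rw [Pi.single_eq_of_ne (Ne.symm hik), chr_zero, mul_one]
    have hnone : ∑ v, f none v * (chr u v - (q : ℂ) ^ d K v)
        = (w p k : ℂ) * Ex K χ' - (w p k : ℂ) * Ex K (Ph d χ (sv k (q : ℂ) 0)) := by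
      have hgen : ∀ F : V p (N K) → ℂ, ∑ v, f none v * F v
          = (w p k : ℂ) * Ex K (fun g => F (g K)) := by
        intro F
        simp only [hf]
        unfold Ex
        simp only [Pi.single_eq_same]
        simp only [mul_assoc, ← mul_sum]
        congr 1
        congr 1
        simp only [sum_mul]
        rw [sum_comm]
        refine sum_congr rfl (fun j _ => ?_)
        rw [sum_comm]
        refine sum_congr rfl (fun a _ => ?_)
        rw [Finset.sum_eq_single (Pi.single j a : V p (N K))]
        · simp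
        · intro v _ hv
          rw [if_neg (Ne.symm hv), zero_mul]
        · intro h; exact absurd (mem_univ _) h
      simp only [mul_sub, sum_sub_distrib]
      rw [hgen, hgen]
      congr 1
      · congr 1
        unfold Ex
        congr 1
        refine sum_congr rfl (fun j _ => sum_congr rfl (fun a _ => ?_))
        simp only [hχ']
        rw [hχ.triv, one_mul]
        intro i hi
        rw [Pi.single_eq_of_ne]
        intro h
        rw [h] at hi
        simp [hK] at hi
      · congr 1
        unfold Ex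
        congr 1
        refine sum_congr rfl (fun j _ => sum_congr rfl (fun a _ => ?_))
        unfold Ph
        rw [hχ.triv, one_mul, prod_sv1 d k hkn]
        · have h1 : TT d k (Pi.single K (Pi.single j a) : H p N (l + 2)) = 1 := by
            unfold TT
            rw [if_pos]
            intro i hi
            rw [Pi.single_eq_of_ne, (hD.pkg i).zero]
            intro h
            rw [h] at hi
            simp [hK] at hi
          rw [h1, mul_one]
          have h2 : (Pi.single K (Pi.single j a) : H p N (l + 2)) ⟨k + 1, hkn⟩ = 0 := by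
            rw [Pi.single_eq_of_ne]
            intro h
            have := congrArg Fin.val h
            simp [hK] at this
          rw [h2, (hD.pkg _).zero, pow_zero, mul_one]
        · intro i hi
          rw [Pi.single_eq_of_ne]
          intro h
          rw [h] at hi
          simp [hK] at hi
    have hval := (hV p N (l + 2) d m (fun i => tau p i) k χ (sv k (q : ℂ) 0) hN0 hD.pkg hχ
      (fun i hi => by simp [sv, hi]) (fun i hi => by
        unfold sv
        rw [if_neg (by omega)]
        split_ifs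
        · rw [Complex.norm_real, Real.norm_eq_abs]
          refine hqb.trans ?_
          rw [div_le_div_iff₀ (by positivity) (by norm_num)]
          linarith
        · simp
        · simp)).1 K (by simp [hK])
    have hsvK : sv k (q : ℂ) 0 K = (q : ℂ) := by simp [sv, hK]
    rw [hsvK] at hval
    refine ⟨r + w p k * e, by rw [hsplit, he]; push_cast; ring, ?_⟩
    have h1 : ‖(r : ℂ) + (w p k : ℂ) * Ex K χ'‖ ≤ B + w p k * (2 * tau p k) := by
      have h2 : (r : ℂ) + (w p k : ℂ) * Ex K χ'
          = (∑ v, f none v * (chr u v - (q : ℂ) ^ d K v))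
            + (w p k : ℂ) * (Ex K (Ph d χ (sv k (q : ℂ) 0)) - (q : ℂ)) := by
        rw [hnone]
        have : (w p k : ℂ) * (q : ℂ) = -(r : ℂ) := by
          rw [hq]
          push_cast
          have : (w p k : ℂ) ≠ 0 := by exact_mod_cast hwk.1.ne'
          field_simp
        rw [mul_sub, this]
        ring
      rw [h2]
      refine (norm_add_le _ _).trans (add_le_add hu1 ?_)
      rw [norm_mul, Complex.norm_real, Real.norm_of_nonneg hwk.1.le]
      exact mul_le_mul_of_nonneg_left hval hwk.1.le
    have h3 : |r + w p k * e| ≤ B + w p k * (2 * tau p k) := by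
      rw [he, ← Complex.ofReal_mul, ← Complex.ofReal_add, Complex.norm_real, Real.norm_eq_abs] at h1
      exact h1
    refine h3.trans ?_
    -- numbers
    have hwdef : w p (k + 1) = w p k ^ 2 / (1000 * p) := rfl
    have hwle : w p (k + 1) * (1000 * p) ≤ 1 := by
      rw [hwdef, div_mul_cancel₀ _ (by positivity)]
      have := hwk.1
      have := hwk.2.1
      nlinarith
    have hτle : tau p k ≤ w p (k + 1) ^ 2 / 10 ^ 10 := by
      unfold tau
      have h4 : w p (k + 1) ^ 4 ≤ w p (k + 1) ^ 2 := by
        have h5 : w p (k + 1) ^ 2 ≤ 1 := pow_le_one₀ hwk1.1.le hwk1.2.1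
        have h6 : w p (k + 1) ^ 4 = w p (k + 1) ^ 2 * w p (k + 1) ^ 2 := by ring
        rw [h6]
        nlinarith
      exact div_le_div_of_nonneg_right h4 (by norm_num)
    have h5 : w p k * (2 * tau p k) ≤ 2 * (w p (k + 1) ^ 2 / 10 ^ 10) := by
      have h6 := (hτ k).1
      have h7 := hwk.2.1
      have h8 := hwk.1
      nlinarith
    have h6 : B + w p k * (2 * tau p k) ≤ w p (k + 1) ^ 2 / 10 := by
      rw [hB]
      have : 2 * (w p (k + 1) ^ 2 / 10 ^ 10) ≤ w p (k + 1) ^ 2 * (1 / 100) := by
        have := hw2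
        linarith
      linarith
    refine h6.trans ?_
    rw [div_le_div_iff₀ (by norm_num) (by positivity)]
    have h7 := hwk1.1
    have h8 : w p (k + 1) ^ 2 * (8 * p) = w p (k + 1) * (w p (k + 1) * (8 * p)) := by ring
    rw [h8]
    have h9 : w p (k + 1) * (8 * p) ≤ 10 := by
      have : 0 ≤ w p (k + 1) * p := by positivity
      linarith
    exact mul_le_mul_of_nonneg_left h9 h7.le
  · intro ζ hζ
    have hdiff : ap x (Ph d χ' (sv (k + 1) ζ 0)) - ap x (Ph d χ (sv k (q : ℂ) ζ))
        = ∑ i : Fin (D + 1), ζ ^ (i : ℕ) * ∑ v, f (some i) v * (chr u v - (q : ℂ) ^ d K v) := by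
      have h1 : ∀ i : Fin (D + 1), ∑ v, f (some i) v * (chr u v - (q : ℂ) ^ d K v)
          = ∑ g : H p N (l + 2), (if d K1 (g K1) = (i : ℕ) then x g * χ g * TT d k g else 0)
              * (chr u (g K) - (q : ℂ) ^ d K (g K)) := by
        intro i
        rw [← Finset.sum_fiberwise (univ : Finset (H p N (l + 2))) (fun g => g K)]
        refine sum_congr rfl (fun v _ => ?_)
        simp only [hf]
        rw [sum_mul]
        refine sum_congr rfl (fun g hg => ?_)
        rw [(mem_filter.1 hg).2]
      simp only [h1, mul_sum]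
      rw [sum_comm]
      unfold ap
      rw [← sum_sub_distrib]
      refine sum_congr rfl (fun g _ => ?_)
      rw [Finset.sum_eq_single (⟨d K1 (g K1), hdD _⟩ : Fin (D + 1))]
      · simp only [if_true]
        unfold Ph
        rw [prod_sv1 d k hkn, prod_sv2 d k hkn]
        simp only [hχ']
        ring
      · intro i _ hi
        rw [if_neg, zero_mul, mul_zero]
        intro h
        exact hi (Fin.ext h.symm)
      · intro h; exact absurd (mem_univ _) h
    rw [hdiff]
    refine (norm_sum_le _ _).trans (le_trans (sum_le_sum (fun i _ => ?_)) (hu2.trans ?_))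
    · rw [norm_mul, norm_pow]
      exact mul_le_mul_of_nonneg_right (pow_le_pow_left₀ (norm_nonneg _) hζ _) (norm_nonneg _)
    · rw [hB]
      have := hw2
      linarith

end

end Pool.Agent.D0H73.OP
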