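import Pool.Agent.D0H73.OP.Stm

/-!
# Project OP: the finite theorem, and the passage from open maps
-/

open Finset Metric
open scoped BigOperators

namespace Pool.Agent.D0H73.OP

open Pool.Agent.V1192 Pool.Agent.V1192.GA
open Pool.Agent.V1192.UOD (V)

theorem t_FIN (hD : S_DAT) (hB : S_BASE) (hS : S_STEP) (hL : S_LAST) : S_FIN := by
  intro p _
  obtain ⟨N, hN, hdat⟩ := hD p
  refine ⟨N, hN, fun l x y hf => ?_⟩
  obtain ⟨d, m, hdm⟩ := hdat (l + 2) x y hf.nx hf.ny
  have h : ∀ k, k ≤ l → Stage l x d k := by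
    intro k
    induction k with
    | zero => exact fun _ => hB p N l x y d m hN hdm hf
    | succ k ih => exact fun hk => hS p N l x y d m hN hdm hf k (by omega) (ih (by omega))
  exact hL p N l x y d m hN hdm hf (h l le_rfl)

/-- Open convolution gives pointwise open multiplication of `GA G`. -/
theorem openMul_of (G : Type) [Group G]
    (h : IsOpenMap (fun q : lp (fun _ : G => ℂ) 1 × lp (fun _ : G => ℂ) 1 => UOE.conv q.1 q.2)) :
    OpenMul (GA G) := by
  intro a b ε hε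
  set a' : lp (fun _ : G => ℂ) 1 := a with ha'
  set b' : lp (fun _ : G => ℂ) 1 := b with hb'
  have h1 : IsOpen (ball a' ε ×ˢ ball b' ε) := isOpen_ball.prod isOpen_ball
  have h2 := h _ h1
  rw [Metric.isOpen_iff] at h2
  obtain ⟨δ, hδ, H⟩ := h2 (UOE.conv a' b') ⟨(a', b'), ⟨mem_ball_self hε, mem_ball_self hε⟩, rfl⟩
  refine ⟨δ, hδ, fun c hc => ?_⟩
  rw [mem_ball, dist_eq_norm] at hc
  have hc' : (show lp (fun _ : G => ℂ) 1 from c) ∈ ball (UOE.conv a' b') δ := by
    rw [mem_ball, dist_eq_norm, ha', hb', UOE.conv_eq]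
    exact hc
  obtain ⟨⟨x, y⟩, ⟨hx, hy⟩, hxy⟩ := H hc'
  refine ⟨x, ?_, y, ?_, ?_⟩
  · simp only [mem_ball, dist_eq_norm] at hx ⊢
    exact hx
  · simp only [mem_ball, dist_eq_norm] at hy ⊢
    exact hy
  · have := UOE.conv_eq (G := G) x y
    rw [← this]
    exact hxy

end Pool.Agent.D0H73.OP
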