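import Pool.Agent.D0H73.OP.Stm

/-!
# Project OP: the numbers
-/

open Finset
open scoped BigOperators

namespace Pool.Agent.D0H73.OP

theorem w_facts (p : ℕ) (hp : 2 ≤ p) (k : ℕ) :
    0 < w p k ∧ w p k ≤ 1 ∧ w p (k + 1) ≤ w p k / 2000 := by
  have hp' : (2 : ℝ) ≤ p := by exact_mod_cast hp
  have h : 0 < w p k ∧ w p k ≤ 1 := by
    induction k with
    | zero => simp [w]
    | succ k ih =>
      obtain ⟨h0, h1⟩ := ih
      have e : w p (k + 1) = w p k ^ 2 / (1000 * p) := rfl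
      rw [e]
      refine ⟨by positivity, ?_⟩
      rw [div_le_one (by positivity)]
      nlinarith
  refine ⟨h.1, h.2, ?_⟩
  have e : w p (k + 1) = w p k ^ 2 / (1000 * p) := rfl
  rw [e, div_le_div_iff₀ (by positivity) (by norm_num)]
  have h1 := h.1
  have h2 := h.2
  nlinarith [mul_nonneg h1.le (sub_nonneg.2 h2), mul_nonneg h1.le (sub_nonneg.2 hp')]

/-- Sums of sequences that decrease geometrically. -/
theorem geo_sum (f : ℕ → ℝ) (h0 : ∀ k, 0 ≤ f k) (h1 : ∀ k, f (k + 1) ≤ f k / 2) (k j : ℕ) :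
    f (k + j) ≤ f k * (1 / 2) ^ j := by
  induction j with
  | zero => simp
  | succ j ih =>
    have := h1 (k + j)
    rw [← add_assoc]
    rw [pow_succ]
    linarith

theorem geo_fin (f : ℕ → ℝ) (h0 : ∀ k, 0 ≤ f k) (h1 : ∀ k, f (k + 1) ≤ f k / 2) (k n : ℕ) :
    ∑ j ∈ range n, f (k + j) ≤ 2 * f k := by
  have h2 : ∑ j ∈ range n, f (k + j) ≤ ∑ j ∈ range n, f k * (1 / 2) ^ j :=
    sum_le_sum (fun j _ => geo_sum f h0 h1 k j)
  have h3 : ∑ j ∈ range n, ((1 : ℝ) / 2) ^ j ≤ 2 := sum_geometric_two_le n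
  rw [← mul_sum] at h2
  have := mul_le_mul_of_nonneg_left h3 (h0 k)
  linarith

theorem geo_filter (f : ℕ → ℝ) (h0 : ∀ k, 0 ≤ f k) (h1 : ∀ k, f (k + 1) ≤ f k / 2) (k n : ℕ) :
    ∑ i ∈ univ.filter (fun i : Fin n => k ≤ (i : ℕ)), f i ≤ 2 * f k := by
  refine le_trans ?_ (geo_fin f h0 h1 k n)
  rw [← sum_image (s := univ.filter (fun i : Fin n => k ≤ (i : ℕ))) (g := fun i : Fin n => (i : ℕ))
    (f := f) (fun a _ b _ h => Fin.ext h)]
  rw [← sum_image (s := range n) (g := fun j => k + j) (f := f) (fun a _ b _ h => by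
    simpa using h)]
  refine sum_le_sum_of_subset_of_nonneg ?_ (fun _ _ _ => h0 _)
  intro j hj
  simp only [mem_image, mem_filter, mem_univ, true_and, mem_range] at hj ⊢
  obtain ⟨i, hi, rfl⟩ := hj
  exact ⟨i - k, by omega, by omega⟩

theorem t_NUM : S_NUM := by
  intro p _
  have hp : 2 ≤ p := (Fact.out : p.Prime).two_le
  have hw := w_facts p hp
  have hτ : ∀ k, 0 < tau p k ∧ tau p k ≤ 1 ∧ tau p (k + 1) ≤ tau p k / 2 := by
    intro k
    have h1 := hw (k + 1)
    have h2 := hw (k + 2)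
    refine ⟨?_, ?_, ?_⟩
    · have := h1.1
      unfold tau
      positivity
    · unfold tau
      rw [div_le_one (by norm_num)]
      have : w p (k + 1) ^ 4 ≤ 1 := pow_le_one₀ h1.1.le h1.2.1
      norm_num
      linarith
    · unfold tau
      have h3 : w p (k + 1 + 1) ≤ w p (k + 1) / 2 := by
        have := h1.2.2
        have := h1.1
        linarith
      have h4 : w p (k + 1 + 1) ^ 4 ≤ (w p (k + 1) / 2) ^ 4 :=
        pow_le_pow_left₀ h2.1.le h3 4
      have h5 : (w p (k + 1) / 2) ^ 4 ≤ w p (k + 1) ^ 4 / 2 := by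
        have : 0 ≤ w p (k + 1) ^ 4 := by have := h1.1; positivity
        rw [div_pow]
        norm_num
        linarith
      rw [div_div, mul_comm, ← div_div]
      exact div_le_div_of_nonneg_right (h4.trans h5) (by norm_num)
  have hwhalf : ∀ k, w p (k + 1) ≤ w p k / 2 := fun k => by
    have := (hw k).2.2
    have := (hw k).1
    linarith
  have hw0 : ∀ k, 0 ≤ w p k := fun k => (hw k).1.le
  have hsum : ∀ k, HasSum (fun i : ℕ => w p k * (1 / 2 : ℝ) ^ i) (w p k * 2) := fun k =>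
    (hasSum_geometric_two).mul_left _
  have hb : ∀ k i, w p (i + k) ≤ w p k * (1 / 2 : ℝ) ^ i := fun k i => by
    rw [add_comm]
    exact geo_sum (w p) hw0 hwhalf k i
  have hs : ∀ k, Summable (fun i => w p (i + k)) := fun k =>
    Summable.of_nonneg_of_le (fun i => hw0 _) (hb k) (hsum k).summable
  refine ⟨hw, hτ, fun k n => ?_, fun n => ?_, ?_, fun k => ?_⟩
  · exact geo_filter (tau p) (fun k => (hτ k).1.le) (fun k => (hτ k).2.2) k n
  · have := geo_filter (w p) hw0 hwhalf 0 n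
    simp only [zero_le, filter_true] at this
    have e : w p 0 = 1 := rfl
    rw [e] at this
    linarith
  · simpa using hs 0
  · have h1 := (hs k).hasSum
    have h2 := hasSum_le (hb k) h1 (hsum k)
    linarith

end Pool.Agent.D0H73.OP
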