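import Pool.Agent.V1192.UOE

/-!
# Project OP (MP_09b497_an, Q1): statements of the modules

Proof (no infinite group of bounded exponent has open convolution).  Notation: `V p N = (Fin N → ZMod p)`,
`H p N n = Π_{i < n} V p (N i)`, weights `w 0 = 1`, `w (k+1) = w k ^ 2 / (1000 p)`, `a = ∑ w_i ξ_i`
with `ξ_i` the average of all `c • e_j` (`c ≠ 0`, `j < N i`) in block `i`.
-/

open Finset
open scoped BigOperators

namespace Pool.Agent.D0H73.OP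

open Pool.Agent.V1192 Pool.Agent.V1192.GA
open Pool.Agent.V1192.UOD (V)

noncomputable section

/-! ## Winding number one -/

/-- `f` has a continuous logarithm `h` on the line that grows by `2 π i` over one period. -/
def Wd (f : ℝ → ℂ) : Prop :=
  ∃ h : ℝ → ℂ, Continuous h ∧ (∀ θ, f θ = Complex.exp (h θ)) ∧
    ∀ θ, h (θ + 2 * Real.pi) = h θ + 2 * Real.pi * Complex.I

/-- The point `exp (i θ)`. -/
def cis (θ : ℝ) : ℂ := Complex.exp (θ * Complex.I)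

/-- Module TOP (1): small perturbations.  (`g = f * exp (log (g / f))`, `g/f` in the right half plane;
periodicity of `f, g` makes the new logarithm have the same increment.) -/
def S_TOP1 : Prop := ∀ f g : ℝ → ℂ, Continuous f → Continuous g →
  (∀ θ, f (θ + 2 * Real.pi) = f θ) → (∀ θ, g (θ + 2 * Real.pi) = g θ) →
  (∀ θ, ‖g θ - f θ‖ < ‖f θ‖) → Wd f → Wd g

/-- Module TOP (2): homotopy invariance (compactness of `[0,1] × [0,2π]` and TOP (1)). -/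
def S_TOP2 : Prop := ∀ F : ℝ → ℝ → ℂ, Continuous (fun q : ℝ × ℝ => F q.1 q.2) →
  (∀ s θ, F s (θ + 2 * Real.pi) = F s θ) → (∀ s, 0 ≤ s → s ≤ 1 → ∀ θ, F s θ ≠ 0) →
  Wd (F 0) → Wd (F 1)

/-- Module TOP (3): a `π`-periodic function has even winding number. -/
def S_TOP3 : Prop := ∀ f : ℝ → ℂ, Wd f → (∀ θ, f (θ + Real.pi) = f θ) → False

/-- Module TOP (4). -/
def S_TOP4 : Prop := Wd (fun θ => cis θ / 2)

/-- Module TOP. -/
def S_TOP : Prop := S_TOP1 ∧ S_TOP2 ∧ S_TOP3 ∧ S_TOP4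

/-! ## One block -/

/-- The defect of a length function `d` (it is `0` when `d` is additive at `(g, h)`). -/
def Bd {A : Type} [AddCommGroup A] (d : A → ℕ) (g h : A) : ℝ :=
  if d (g + h) = d g + d h then 0 else (1 / 2) ^ d (g + h)

/-- Characters of `V p N`. -/
def chr {p : ℕ} [Fact p.Prime] {N : ℕ} (u v : V p N) : ℂ := ZMod.stdAddChar (∑ j, u j * v j)

/-- What is needed of a length function `d` on a block, for the mass distribution `m`. -/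
structure Pkg {p : ℕ} [Fact p.Prime] {N : ℕ} (m : V p N → ℝ) (τ : ℝ) (d : V p N → ℕ) : Prop where
  zero : d 0 = 0
  neg : ∀ v, d (-v) = d v
  add : ∀ u v, d (u + v) ≤ d u + d v
  mass : ∑ u, ∑ v, m u * m v * Bd d u v ≤ τ
  gens : ((univ.filter (fun j : Fin N => ∃ a : ZMod p, a ≠ 0 ∧ d (Pi.single j a) ≠ 1)).card : ℝ)
    ≤ τ * N
  riesz : ∀ q : ℝ, |q| ≤ 1 / (8 * p) → ∃ ρ : V p N → ℝ, (∀ u, 0 ≤ ρ u) ∧ ∑ u, ρ u = 1 ∧
    ∀ v, ‖∑ u, (ρ u : ℂ) * chr u v - (q : ℂ) ^ d v‖ ≤ τ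

open Classical in
/-- Module RIESZ.  Take
`ρ u = [u = 0 on J] * p^(-(N - |J|)) * (∏_{j ∉ J} (1 + q * ∑_{a ≠ 0} stdAddChar (a * u j)))
  * ∑_{l ∈ span S} chr u l`; the product is `∏_{j ∉ J} (1 + q * (p * [u j = 0] - 1)) ≥ 0` and the last sum
is `|span S|` or `0`.  Expand and use orthogonality coordinatewise. -/
def S_RIESZ : Prop := ∀ (p : ℕ) [Fact p.Prime] (N : ℕ) (J : Finset (Fin N)) (S : Finset (V p N))
  (q : ℝ), |q| ≤ 1 / (8 * p) → ∃ ρ : V p N → ℝ, (∀ u, 0 ≤ ρ u) ∧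
    ∀ v, ∑ u, (ρ u : ℂ) * chr u v
      = ∑ l ∈ univ.filter (fun l : V p N => l ∈ Submodule.span (ZMod p) (S : Set (V p N))),
        (q : ℂ) ^ UOD.wt J (v - l)

/-- Module PKG (assumes RIESZ).  `d = UOD.dst J S` for a maximiser `(J, S)` of
`UOD.Psi (fun v => m v + m v) M η` (`UOD.exists_max`), all from `V1192/UOD.lean`: `mass` is
`UOD.total_error` with `x = y = m`; `|J| ≤ 2C/η` (`card_J_le`), `|S| ≤ 2C/(η (M+1))` (same proof);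
`UOD.span_small`: nonzero vectors of the span have weight `> M` off `J`, so `d (a e_j) = 1` for `j ∉ J`, and
in RIESZ only the nearest `l` counts: `wt J (v - l) ≥ M/2` for all other `l`, so
`|∑_l q^(wt J (v-l)) - q^(d v)| ≤ p^|S| * |q|^(M/2)`; then normalise `ρ` by `∑ ρ` (the case `v = 0`).
Order of choice: `k`, then `s = η (M+1)` small (fixed), then `M` huge compared with `p^(2C/s)`,
`η = s/(M+1)`, then `N ≥ 2C/(η τ)`. -/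
def S_PKG : Prop := ∀ (p : ℕ) [Fact p.Prime] (C τ : ℝ), 1 ≤ C → 0 < τ → ∃ N : ℕ, 0 < N ∧
  ∀ m : V p N → ℝ, (∀ v, 0 ≤ m v) → ∑ v, m v ≤ C → ∃ d : V p N → ℕ, Pkg m τ d

/-- Module CONC.  With `ρ` from `Pkg.riesz`: `E |χ(f) - F_q(f)|² ≤ 5 C² τ` (expand; use
`|q^(d (u-v)) - q^(d u + d v)| ≤ 2 Bd d u (-v)`, `m` symmetric, `mass`), so
`E ∑ c_i |χ(f_i) - F_q(f_i)| ≤ (∑ c_i) * 3 C √τ` and some `u` does it. -/
def S_CONC : Prop := ∀ (p : ℕ) [Fact p.Prime] (N : ℕ) (m : V p N → ℝ) (C τ : ℝ) (d : V p N → ℕ),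
  1 ≤ C → 0 < τ → τ ≤ 1 → Pkg m τ d → (∀ v, 0 ≤ m v) → (∀ v, m (-v) = m v) → ∑ v, m v ≤ C →
  ∀ q : ℝ, |q| ≤ 1 / (8 * p) → ∀ (ι : Type) [Fintype ι] (f : ι → V p N → ℂ) (c : ι → ℝ),
    (∀ i, 0 ≤ c i) → (∀ i v, ‖f i v‖ ≤ m v) →
    ∃ u : V p N, ∑ i, c i * ‖∑ v, f i v * (chr u v - (q : ℂ) ^ d v)‖
      ≤ (∑ i, c i) * (3 * C * Real.sqrt τ)

/-! ## The finite groups -/

/-- The product of the first `n` blocks. -/
abbrev H (p : ℕ) (N : ℕ → ℕ) (n : ℕ) : Type := (i : Fin n) → V p (N i)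

/-- The weights. -/
def w (p : ℕ) : ℕ → ℝ
  | 0 => 1
  | k + 1 => w p k ^ 2 / (1000 * p)

/-- The tolerances. -/
def tau (p : ℕ) (k : ℕ) : ℝ := w p (k + 1) ^ 4 / 10 ^ 10

section Fin

variable {p : ℕ} [Fact p.Prime] {N : ℕ → ℕ} {n : ℕ}

/-- The average of `F` over the vectors `a e_j`, `a ≠ 0`, of block `i`. -/
def Ex (i : Fin n) (F : H p N n → ℂ) : ℂ :=
  (1 / ((N i : ℂ) * ((p : ℂ) - 1))) *
    ∑ j : Fin (N i), ∑ a ∈ (univ : Finset (ZMod p)).erase 0, F (Pi.single i (Pi.single j a))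

open Classical in
/-- The element `a = ∑ w_i ξ_i`. -/
def aa (g : H p N n) : ℂ := ∑ i : Fin n, (w p i : ℂ) * Ex i (fun h => if h = g then 1 else 0)

/-- Evaluation. -/
def ap (x : H p N n → ℂ) (F : H p N n → ℂ) : ℂ := ∑ g, x g * F g

/-- Evaluation at a product. -/
def ap2 (x y : H p N n → ℂ) (F : H p N n → ℂ) : ℂ := ∑ g, ∑ h, x g * y h * F (g + h)

/-- Exact characters of the blocks `< k`. -/
structure IsChr (k : ℕ) (χ : H p N n → ℂ) : Prop where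
  add : ∀ g h, χ (g + h) = χ g * χ h
  norm : ∀ g, ‖χ g‖ = 1
  triv : ∀ g : H p N n, (∀ i : Fin n, (i : ℕ) < k → g i = 0) → χ g = 1

/-- The functional with character `χ` and disc variables `s`. -/
def Ph (d : (i : Fin n) → V p (N i) → ℕ) (χ : H p N n → ℂ) (s : Fin n → ℂ) (g : H p N n) : ℂ :=
  χ g * ∏ i, s i ^ d i (g i)

/-- The disc variables of stage `k`: `1` on blocks `< k`, `z` on block `k`, `ζ` on block `k+1`, `0` after. -/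
def sv (k : ℕ) (z ζ : ℂ) (i : Fin n) : ℂ :=
  if (i : ℕ) < k then 1 else if (i : ℕ) = k then z else if (i : ℕ) = k + 1 then ζ else 0

/-- The residual `∑_{i < k} w_i ξ_i(χ)`. -/
def tt (k : ℕ) (χ : H p N n → ℂ) : ℂ :=
  ∑ i ∈ univ.filter (fun i : Fin n => (i : ℕ) < k), (w p i : ℂ) * Ex i χ

open Classical in
/-- The data: lengths and masses of all blocks. -/
structure Dat (x y : H p N n → ℂ) (d : (i : Fin n) → V p (N i) → ℕ)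
    (m : (i : Fin n) → V p (N i) → ℝ) : Prop where
  pkg : ∀ i, Pkg (m i) (tau p i) (d i)
  msym : ∀ i v, m i (-v) = m i v
  mtot : ∀ i, ∑ v, m i v ≤ 16
  mx : ∀ i v, ∑ g ∈ univ.filter (fun g : H p N n => g i = v), ‖x g‖ ≤ m i v
  my : ∀ i v, ∑ g ∈ univ.filter (fun g : H p N n => g i = v), ‖y g‖ ≤ m i v
  ma : ∀ i v, ∑ g ∈ univ.filter (fun g : H p N n => g i = v), ‖(aa g : ℂ)‖ ≤ m i v

/-- The hypotheses on `x, y` in the group with `l + 2` blocks. -/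
structure Fac (l : ℕ) (x y : H p N (l + 2) → ℂ) : Prop where
  nx : ∑ g, ‖x g‖ ≤ 3
  ny : ∑ g, ‖y g‖ ≤ 3
  near : ∀ F : H p N (l + 2) → ℂ, (∀ g, ‖F g‖ ≤ 1) → ‖ap x F - ap aa F‖ ≤ 1 / 6
  prod : ∀ F : H p N (l + 2) → ℂ, (∀ g, ‖F g‖ ≤ 1) →
    ‖ap2 x y F - (ap2 aa aa F + ((w p l ^ 2 / 100 : ℝ) : ℂ) * Ex (Fin.last (l + 1)) F)‖
      ≤ w p (l + 1) ^ 2 / 100

/-- The property carried through the stages. -/
def Stage (l : ℕ) (x : H p N (l + 2) → ℂ) (d : (i : Fin (l + 2)) → V p (N i) → ℕ) (k : ℕ) : Prop :=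
  ∃ χ : H p N (l + 2) → ℂ, IsChr k χ ∧ (∃ r : ℝ, tt k χ = (r : ℂ) ∧ |r| ≤ w p k / (8 * p)) ∧
    Wd (fun θ => ap x (Ph d χ (sv k (cis θ / 2) 0)))

end Fin

/-- Module NUM: the numbers. -/
def S_NUM : Prop := ∀ (p : ℕ) [Fact p.Prime],
  (∀ k, 0 < w p k ∧ w p k ≤ 1 ∧ w p (k + 1) ≤ w p k / 2000) ∧
  (∀ k, 0 < tau p k ∧ tau p k ≤ 1 ∧ tau p (k + 1) ≤ tau p k / 2) ∧
  (∀ k n, ∑ i ∈ univ.filter (fun i : Fin n => k ≤ (i : ℕ)), tau p i ≤ 2 * tau p k) ∧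
  (∀ n, ∑ i : Fin n, w p i ≤ 2) ∧ Summable (w p) ∧ (∀ k, ∑' i, w p (i + k) ≤ 2 * w p k)

/-- Module AAF: `aa` as a functional, and its norm. -/
def S_AAF : Prop := ∀ (p : ℕ) [Fact p.Prime] (N : ℕ → ℕ) (n : ℕ), (∀ i, 0 < N i) →
  (∀ F : H p N n → ℂ, ap aa F = ∑ i : Fin n, (w p i : ℂ) * Ex i F) ∧
  (∑ g : H p N n, ‖(aa g : ℂ)‖ ≤ 2) ∧
  (∀ (i : Fin n) (F : H p N n → ℂ), (∀ g, ‖F g‖ ≤ 1) → ‖Ex i F‖ ≤ 1) ∧
  (∀ (i : Fin n) (χ : H p N n → ℂ), (∀ g h, χ (g + h) = χ g * χ h) → (∀ g, ‖χ g‖ = 1) →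
    ∃ r : ℝ, Ex i χ = (r : ℂ))

/-- Module DAT (from PKG with `C = 16`, `τ = tau p i`; `m i v` = the sum of the six fibre masses of
`x, y, a` at `v` and at `-v`). -/
def S_DAT : Prop := ∀ (p : ℕ) [Fact p.Prime], ∃ N : ℕ → ℕ, (∀ i, 0 < N i) ∧
  ∀ (n : ℕ) (x y : H p N n → ℂ), ∑ g, ‖x g‖ ≤ 3 → ∑ g, ‖y g‖ ≤ 3 →
    ∃ d m, Dat x y d m

/-- Module NM: near multiplicativity.  Pointwise
`|Ph (g+h) - Ph g * Ph h| ≤ ∑_{i ≥ k} 2 * Bd (d i) (g i) (h i)` (`|s i| ≤ 1/2` for `i ≥ k`); sum over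
`g, h` and use the fibre masses and `Pkg.mass`. -/
def S_NM : Prop := ∀ (p : ℕ) [Fact p.Prime] (N : ℕ → ℕ) (n : ℕ)
  (d : (i : Fin n) → V p (N i) → ℕ) (m : (i : Fin n) → V p (N i) → ℝ) (τ : Fin n → ℝ)
  (b c : H p N n → ℂ) (k : ℕ) (χ : H p N n → ℂ) (s : Fin n → ℂ),
  (∀ i, Pkg (m i) (τ i) (d i)) →
  (∀ i v, ∑ g ∈ (univ : Finset (H p N n)).filter (fun g => g i = v), ‖b g‖ ≤ m i v) →
  (∀ i v, ∑ g ∈ (univ : Finset (H p N n)).filter (fun g => g i = v), ‖c g‖ ≤ m i v) →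
  IsChr k χ → (∀ i : Fin n, (i : ℕ) < k → s i = 1) → (∀ i : Fin n, k ≤ (i : ℕ) → ‖s i‖ ≤ 1 / 2) →
  ‖ap2 b c (Ph d χ s) - ap b (Ph d χ s) * ap c (Ph d χ s)‖
    ≤ 2 * ∑ i ∈ univ.filter (fun i : Fin n => k ≤ (i : ℕ)), τ i

/-- Module VAL: the value at the generators of a block `i ≥ k`, and at those of a block `i < k`. -/
def S_VAL : Prop := ∀ (p : ℕ) [Fact p.Prime] (N : ℕ → ℕ) (n : ℕ)
  (d : (i : Fin n) → V p (N i) → ℕ) (m : (i : Fin n) → V p (N i) → ℝ) (τ : Fin n → ℝ)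
  (k : ℕ) (χ : H p N n → ℂ) (s : Fin n → ℂ), (∀ i, 0 < N i) →
  (∀ i, Pkg (m i) (τ i) (d i)) →
  IsChr k χ → (∀ i : Fin n, (i : ℕ) < k → s i = 1) → (∀ i : Fin n, k ≤ (i : ℕ) → ‖s i‖ ≤ 1 / 2) →
  (∀ i : Fin n, k ≤ (i : ℕ) → ‖Ex i (Ph d χ s) - s i‖ ≤ 2 * τ i) ∧
  (∀ i : Fin n, (i : ℕ) < k → Ex i (Ph d χ s) = Ex i χ)

/-- Module LOW (from NUM, AAF, NM, VAL): the product formula at stage `k`. -/
def S_LOW : Prop := ∀ (p : ℕ) [Fact p.Prime] (N : ℕ → ℕ) (l : ℕ) (x y : H p N (l + 2) → ℂ)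
  (d : (i : Fin (l + 2)) → V p (N i) → ℕ) (m : (i : Fin (l + 2)) → V p (N i) → ℝ),
  (∀ i, 0 < N i) → Dat x y d m → Fac l x y → ∀ (k : ℕ) (χ : H p N (l + 2) → ℂ), k ≤ l →
  IsChr k χ → ∀ z ζ : ℂ, ‖z‖ ≤ 1 / 2 → ‖ζ‖ ≤ 1 / 2 →
  ‖ap x (Ph d χ (sv k z ζ)) * ap y (Ph d χ (sv k z ζ))
    - ((tt k χ + w p k * z + w p (k + 1) * ζ) ^ 2
      + (if k = l then ((w p l ^ 2 / 100 : ℝ) : ℂ) * ζ else 0))‖ ≤ w p (k + 1) ^ 2 / 50

/-- Module CMP: comparison of the functional at `q` on block `k` with an exact character of block `k`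
(from CONC, NUM, AAF).  Apply CONC on block `k` with `m k`, `τ = tau p k`, `C = 16`, `q = -r / w_k`, to the
functions `f_j v = ∑_{g k = v, d_{k+1} (g (k+1)) = j, d_i (g i) = 0 for i > k+1} x g * χ g` (weight
`2^(-j)`) and `f v = w_k * (average of the indicator of v over the generators of block k)` (weight 1; bounded
by the fibre mass of `aa`); error `≤ 3 * 48 * √τ = 144 * 10^(-5) * w_{k+1}^2`.
New character: `χ' g = χ g * chr u (g k)`. -/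
def S_CMP : Prop := ∀ (p : ℕ) [Fact p.Prime] (N : ℕ → ℕ) (l : ℕ) (x y : H p N (l + 2) → ℂ)
  (d : (i : Fin (l + 2)) → V p (N i) → ℕ) (m : (i : Fin (l + 2)) → V p (N i) → ℝ),
  (∀ i, 0 < N i) → Dat x y d m → ∀ (k : ℕ) (χ : H p N (l + 2) → ℂ), k < l →
  IsChr k χ → ∀ r : ℝ, tt k χ = (r : ℂ) → |r| ≤ w p k / (8 * p) →
  ∃ χ' : H p N (l + 2) → ℂ, IsChr (k + 1) χ' ∧
    (∃ r' : ℝ, tt (k + 1) χ' = (r' : ℂ) ∧ |r'| ≤ w p (k + 1) / (8 * p)) ∧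
    ∀ ζ : ℂ, ‖ζ‖ ≤ 1 / 2 →
      ‖ap x (Ph d χ' (sv (k + 1) ζ 0)) - ap x (Ph d χ (sv k ((-r / w p k : ℝ) : ℂ) ζ))‖
        ≤ w p (k + 1) ^ 2 / 100

/-- Module STEP (from TOP, LOW, CMP): homotopy `z = (1-s) e^{iθ}/2 + s q`, `ζ = s e^{iθ}/2`, `q = -r/w_k`. -/
def S_STEP : Prop := ∀ (p : ℕ) [Fact p.Prime] (N : ℕ → ℕ) (l : ℕ) (x y : H p N (l + 2) → ℂ)
  (d : (i : Fin (l + 2)) → V p (N i) → ℕ) (m : (i : Fin (l + 2)) → V p (N i) → ℝ),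
  (∀ i, 0 < N i) → Dat x y d m → Fac l x y → ∀ k, k < l → Stage l x d k → Stage l x d (k + 1)

/-- Module BASE (from TOP, AAF, VAL, NUM): `χ = 1`. -/
def S_BASE : Prop := ∀ (p : ℕ) [Fact p.Prime] (N : ℕ → ℕ) (l : ℕ) (x y : H p N (l + 2) → ℂ)
  (d : (i : Fin (l + 2)) → V p (N i) → ℕ) (m : (i : Fin (l + 2)) → V p (N i) → ℝ),
  (∀ i, 0 < N i) → Dat x y d m → Fac l x y → Stage l x d 0

/-- Module LAST (from TOP, LOW): homotopy `z = (1-s) e^{iθ}/2 + s q`, `ζ = s e^{2iθ}/2`, at stage `l`;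
at `s = 1` the function is `π`-periodic. -/
def S_LAST : Prop := ∀ (p : ℕ) [Fact p.Prime] (N : ℕ → ℕ) (l : ℕ) (x y : H p N (l + 2) → ℂ)
  (d : (i : Fin (l + 2)) → V p (N i) → ℕ) (m : (i : Fin (l + 2)) → V p (N i) → ℝ),
  (∀ i, 0 < N i) → Dat x y d m → Fac l x y → Stage l x d l → False

/-- The finite theorem (from DAT, BASE, STEP, LAST). -/
def S_FIN : Prop := ∀ (p : ℕ) [Fact p.Prime], ∃ N : ℕ → ℕ, (∀ i, 0 < N i) ∧
  ∀ (l : ℕ) (x y : H p N (l + 2) → ℂ), Fac l x y → False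

/-! ## Groups -/

/-- Pointwise open multiplication. -/
def OpenMul (A : Type) [NormedRing A] : Prop :=
  ∀ a b : A, ∀ ε > 0, ∃ δ > 0, ∀ c ∈ Metric.ball (a * b) δ, ∃ x ∈ Metric.ball a ε,
    ∃ y ∈ Metric.ball b ε, x * y = c

/-- Module GRP: the infinite version of `UOC.exists_maps` (same proof, with an infinite part of a basis indexed
by `Σ i, Fin (N i)`). -/
def S_GRP : Prop := ∀ (G : Type) [CommGroup G] [Infinite G] (n : ℕ), 0 < n → (∀ g : G, g ^ n = 1) →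
  ∃ p : ℕ, p.Prime ∧ ∀ N : ℕ → ℕ, ∃ ψ : (i : ℕ) → G → V p (N i), (∀ i g h, ψ i (g * h) = ψ i g + ψ i h) ∧
    ∃ t : (i : ℕ) → Fin (N i) → G, (∀ i j, ψ i (t i j) = Pi.single j 1) ∧
      ∀ i i' j, i' ≠ i → ψ i' (t i j) = 0

/-- Module PUSH (from FIN, GRP, NUM, AAF): the abelian case.  `a = ∑' w_i ξ_i` in `GA G`,
`ξ_i = (N_i (p-1))⁻¹ ∑_j ∑_{c ≠ 0} pt (t i j ^ c.val)`, openness at `(a, a)` with `ε = 1/8`,
`c = a * a + (w_l^2/100) ξ_{l+1}`, `l` large; push to `H p N (l+2)` with `UOC.fib`, `UOC.LF`, `UOC.LF_mul`,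
`UOC.sum_norm_fib`; the blocks `≥ l + 2` contribute `(∑_{i ≥ l+2} w_i) δ_0 ≤ 2 w_{l+2} = w_{l+1}^2/(500 p)`. -/
def S_PUSH : Prop := ∀ (G : Type) [Group G] [Infinite G], (∀ x y : G, x * y = y * x) → ∀ n : ℕ, 0 < n →
  (∀ g : G, g ^ n = 1) → OpenMul (GA G) → False

/-- Module ABEL: pointwise openness makes `G` abelian (`UOA.lean`: `idem_half`, `idem_central` use uniform
openness only at the pairs `(e, 1 - e)`; then `comm_of_central`). -/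
def S_ABEL : Prop := ∀ (G : Type) [Group G] (n : ℕ), 0 < n → (∀ g : G, g ^ n = 1) → OpenMul (GA G) →
  ∀ x y : G, x * y = y * x

end

end Pool.Agent.D0H73.OP
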